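import Pool.Agent.Y213.CT.All

/-!
# Sections of fundamental groups in families over all extensions of bounded degree

`E : y² = x³ + a x + b` is an elliptic curve over a number field `K` (any rank, with or without
complex multiplication) whose Tate-Shafarevich group over `K` is killed by some `M₀ ≥ 1` (nothing is
assumed over larger fields), and `X` is a closed subset of `E ^ r × ℙ ^ n` over `K`, a family of
closed subsets `X_y ⊆ E ^ r` with parameter space `ℙ ^ n`. Suppose that for all `1 ≤ m ≤ M` and all
complex points `S` of `E ^ r` there are at most `D` points `y` such that `S` is a sum of `m` points of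
`X_y`. Then for all points `y` in `ℙ ^ n (K)` of height at most `B` with
`O(B ^ ε)` exceptions and ALL extensions `F` of `K` of degree at most `M`, no smooth curve `C` over
`F` with a map to `X_y` has a section of the map from `π₁(C)` to the absolute Galois group of `F`
which is given over `F_w` by a point (or a cusp) of `C` for all finite places `w` of `F`.

The field `N` can be any extension of the function field `L` of `C` in the algebraic closure `Ω` of
`L` which contains the maximal extension `unramified L Ω U` of `L` unramified over the valuation rings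
`O ∈ U` of the points of `C`. In particular `N = Ω` (sections of the absolute Galois group) is allowed.
The proof: the corestriction to `K` of the classes given by a section over `F` is locally given by the
traces of the local points, so it comes from `E(K)` modulo `N`; then a sieve with reductions and the
determinant method.
-/

set_option autoImplicit false

namespace Pool.Agent.Results.MP_c1dca2_ag.FamiliesOverExtensions

open MvPolynomial NumberField IsDedekindDomain Pool.Agent.TH954 Pool.Agent.W620.SC

open scoped LinearAlgebra.Projectivization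

/-- the curve `y² = x³ + a x + b` -/
def curve {F : Type} [Field F] (a b : F) : WeierstrassCurve F := ⟨0, 0, 0, a, b⟩

/-- homogeneous coordinates of a point in the projective plane -/
def coords {F : Type} [Field F] {W : WeierstrassCurve F} : W.toAffine.Point → Fin 3 → F
  | .zero => ![0, 1, 0]
  | .some x y _ => ![x, y, 1]

/-- `F` is homogeneous of degree `d i` in the coordinates `(i, 0), (i, 1), (i, 2)` of the `i`-th
point of the plane, and homogeneous of degree `m` in the last `n + 1` variables -/
def MultiHomog {O : Type} [CommRing O] {r n : ℕ}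
    (F : MvPolynomial ((Fin r × Fin 3) ⊕ Fin (n + 1)) O) (d : Fin r → ℕ) (m : ℕ) : Prop :=
  ∀ e ∈ F.support, (∀ i, ∑ j, e (Sum.inl (i, j)) = d i) ∧ ∑ i, e (Sum.inr i) = m

open scoped Classical in
/-- `S` is a sum of `m` complex points `P` of the member `X_y`, that is, with `G_e(P; y) = 0` for
all `e` -/
def IsSum {K : Type} [Field K] (σ : K →+* ℂ) (a b : 𝓞 K) {r n q : ℕ}
    (G : Fin q → MvPolynomial ((Fin r × Fin 3) ⊕ Fin (n + 1)) (𝓞 K)) (m : ℕ)
    (S : Fin r → (curve (σ a) (σ b)).toAffine.Point) (y : Fin (n + 1) → ℂ) : Prop :=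
  ∃ P : Fin m → Fin r → (curve (σ a) (σ b)).toAffine.Point,
    (∀ j e, eval₂ (σ.comp (algebraMap (𝓞 K) K))
      (Sum.elim (fun il => coords (P j il.1) il.2) y) (G e) = 0) ∧ ∀ i, ∑ j, P j i = S i

/-- the equations `G_e(V; y) = 0`, over the extension `F` of `K`, of the member `X_y`, for a
`K`-rational point `y` of `ℙ ^ n` -/
noncomputable def MemberOver {K : Type} [Field K] {r n q : ℕ}
    (G : Fin q → MvPolynomial ((Fin r × Fin 3) ⊕ Fin (n + 1)) (𝓞 K)) (F : Type) [Field F]
    [Algebra K F] (y : ℙ K (Fin (n + 1) → K)) : Set (MvPolynomial (Fin r × Fin 3) F) :=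
  Set.range fun e => eval₂ (C.comp ((algebraMap K F).comp (algebraMap (𝓞 K) K)))
    (Sum.elim X (fun i => C (algebraMap K F (y.rep i)))) (G e)

theorem coords_eq {F : Type} [Field F] {a b : F} (P : Pool.Agent.H901R3.MS.Pt a b) :
    coords P = Pool.Agent.H901R3.MS.rep P := by
  rcases P with _ | ⟨x, y, h⟩ <;> rfl

theorem result (K : Type) [Field K] [NumberField K] (a b : 𝓞 K)
    (hE : 4 * a ^ 3 + 27 * b ^ 2 ≠ 0) (M₀ : ℕ) (hM1 : 1 ≤ M₀)
    (hM : ShaKilledBy (curve (a : K) (b : K)) M₀) (r n q : ℕ)
    (G : Fin q → MvPolynomial ((Fin r × Fin 3) ⊕ Fin (n + 1)) (𝓞 K))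
    (d : Fin q → Fin r → ℕ) (deg : Fin q → ℕ) (hG : ∀ e, MultiHomog (G e) (d e) (deg e))
    (σ : K →+* ℂ) (M D : ℕ)
    (hX : ∀ m, 1 ≤ m → m ≤ M → ∀ S : Fin r → (curve (σ a) (σ b)).toAffine.Point,
      {y : ℙ ℂ (Fin (n + 1) → ℂ) | IsSum σ a b G m S y.rep}.encard ≤ D)
    (ε : ℝ) (hε : 0 < ε) :
    ∃ C : ℝ, ∀ B : ℝ, 1 ≤ B → ∃ Z : Finset (ℙ K (Fin (n + 1) → K)), (Z.card : ℝ) ≤ C * B ^ ε ∧
      ∀ y : ℙ K (Fin (n + 1) → K), y.mulHeight ≤ B → y ∉ Z →
      ∀ (F : Type) [Field F] [NumberField F] [Algebra K F] (_ : Module.finrank K F ≤ M)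
        (L Ω N A : Type) [Field L] [Field Ω] [Field N] [Field A] [Algebra F L] [Algebra L Ω]
        [Algebra F Ω] [Algebra L N] [Algebra F N] [Algebra F A] [IsScalarTower F L Ω]
        [IsScalarTower F L N] [IsAlgClosure L Ω] [IsAlgClosure F A]
        (U : Set (ValuationSubring L)) (_ : ∀ O ∈ U, ∀ c : F, algebraMap F L c ∈ O)
        (e : N →ₐ[L] Ω) (_ : unramified L Ω U ≤ e.fieldRange)
        (P : Fin r → ((curve (algebraMap K F a) (algebraMap K F b)).baseChange L).toAffine.Point)
        (_ : OnX (MemberOver G F y) (fun i => crd (P i))) (s : GalSection F L N A),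
        ¬ ∀ w : HeightOneSpectrum (𝓞 F),
          ∃ p : Plc F N (AlgebraicClosure (w.adicCompletion F)), s.GivenBy (w.adicCompletion F) p := by
  obtain ⟨C, hC⟩ := Pool.Agent.Y213.CT.partBH K r (n + 1) q (Finset.range M) a b hE G d deg
    (fun e x hx => (hG e x hx).1) (fun e x hx => (hG e x hx).2) D σ (by
      intro m hm S
      rw [Finset.mem_range] at hm
      refine (Set.encard_le_encard ?_).trans (hX (m + 1) (by omega) (by omega) S)
      intro y hy
      obtain ⟨P, hP1, hP2⟩ := hy
      refine ⟨P, fun j e => ?_, hP2⟩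
      have h1 := hP1 j e
      unfold Pool.Agent.Y213.EC.vl at h1
      rw [← h1]
      congr 1
      funext ij
      rcases ij with ij | i
      · exact congrFun (coords_eq (P j ij.1)) ij.2
      · rfl) ε hε
  refine ⟨C, fun B hB => ?_⟩
  obtain ⟨h1, h2⟩ := hC B hB
  refine ⟨h1.toFinset, ?_, ?_⟩
  · rw [← Set.ncard_eq_toFinset_card _ h1]
    exact h2
  · intro y hyB hyF F _ _ _ hdeg L Ω N A _ _ _ _ _ _ _ _ _ _ _ _ _ _ U hU e he P hPS s hloc
    haveI : Module.Finite K F := Module.Finite.of_restrictScalars_finite ℚ K F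
    have hpos : 0 < Module.finrank K F := Module.finrank_pos
    choose p hp using hloc
    have hsv : Pool.Agent.Y213.CT.HL a b G (Module.finrank K F - 1) y.rep :=
      Pool.Agent.Y213.CT.hl_of_section Pool.Agent.Y213.CT.tEmb Pool.Agent.Y213.CT.tGal
        Pool.Agent.Y213.CT.tUni Pool.Agent.Y213.CT.tPlc a b hE G d deg
        (fun e x hx => (hG e x hx).1) (fun e x hx => (hG e x hx).2) hM1 hM
        (Module.finrank K F - 1) y.rep F (by omega) U hU e he P hPS s p hp
    apply hyF
    rw [Set.Finite.mem_toFinset]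
    exact ⟨⟨_, Finset.mem_range.2 (by omega), hsv⟩, hyB⟩

end Pool.Agent.Results.MP_c1dca2_ag.FamiliesOverExtensions
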