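import Pool.Agent.Y158.GR.Pt

/-!
# The section conjecture for Fermat curves of regular prime degree, relative to the prime above `ℓ`

Let `ℓ` be an odd regular prime, that is, `ℓ` does not divide the class number of `K = ℚ(ζ_ℓ)`, and
let `λ` be the place of `K` above `ℓ`.  Let `X` be the Fermat curve of degree `ℓ` over `K`.  Kummer
proved that the `K`-rational points of `X` are the `3 ℓ` points with `x y z = 0`.  We prove the
corresponding statement for Galois sections.

*Let `s` be a section of the geometrically pro-`ℓ` fundamental group `π₁(X)^(ℓ) → G_K` which over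
the completion of `K` at `λ` is given by a local point.  Then `s` is the section of a `K`-rational
point of `X`, and this point is one of the `3 ℓ` points with `x y z = 0`.*

Nothing is assumed at the other places of `K`.  A condition at `λ` is natural for pro-`ℓ` sections:
Hoshi constructed, for regular `ℓ`, nongeometric pro-`ℓ` sections over number fields, using that
the Galois group of the maximal pro-`ℓ` extension of `ℚ(ζ_ℓ)` which is unramified outside `ℓ` is a
free pro-`ℓ` group.

The theorem is stated for all curves `C` over `K` with a nonconstant map to the Fermat curve of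
degree `n = ℓ m`, `m ≥ 1`, that is, for the function fields `F` of transcendence degree one over `K`
with elements `x`, `y` such that `x ^ n + y ^ n = 1`, where `x` is not constant, and for all quotients
`Gal(N/F)` of the absolute Galois group of `F` through which the map to the geometrically pro-`ℓ`
fundamental group `Gal(N₀/F₀)` of the Fermat curve of degree `ℓ`, with function field
`F₀ = K(x ^ m, y ^ m)`, factors.  This includes the fundamental group of `C` and of all its open
subschemes (`fermatPro_unramified` below), and the case `C = X`, `F = F₀`, `N = N₀`.  The local point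
is a place `p` of `N` with values in the algebraic closure of the completion `K_λ`.  The conclusion is
that `p` is above a rational point `(a : b : c)` of the Fermat curve of degree `ℓ` with `a b c = 0`,
and that all automorphisms `s g` map the valuation ring of `p` on `N₀` to itself.  So the section of
`Gal(N₀/F₀)` that is induced by `s` has image in the decomposition group of a valuation ring of `N₀`
above the rational point `(a : b : c)`; this means that it is the section attached to this point.

Proof.  By a weight argument the inertia groups of `G_K` at the places of good reduction that do not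
divide `ℓ` act trivially, through `s`, on the residue field of the Gauss valuation of `N₀`.  So, for a
function on the fixed field of `s` whose divisor is divisible by `ℓ`, its Kummer class in
`K^* / K^{*ℓ}` is unramified if this holds at the Gauss valuation, and Kummer's proof of Fermat's last
theorem for regular primes can be carried out in the fixed field of `s`, with the
congruences taken at the local point at `λ`.  So the local point is above a point with `x y z = 0`.
For the second part let `c` be the inertia generator at `p` of the group of `N₀` over the line (the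
Fermat curve is a cyclic covering of the line).  Then `s` and its conjugate by `c` agree on
the decomposition group of `λ` and on all the inertia groups outside `ℓ`.  By class field theory,
here by Kummer's lemma on units and the class number, two sections with this property are equal.  So
`s` commutes with `c`, and as `c` fixes only one place of `N₀`, this place is fixed by `s`.
-/

set_option autoImplicit false

open IsDedekindDomain NumberField Pool.Agent.W620.SC Pool.Agent.TH954

namespace Pool.Agent.Results.MP_c1dca2_ag.KummerProEll

section definitions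

variable (ℓ : ℕ) (K : Type) {F : Type} (Ω : Type) [Field K] [Field F] [Field Ω] [Algebra K F]
  [Algebra F Ω] [Algebra K Ω] [IsScalarTower K F Ω]

/-- The maximal geometrically pro-`ℓ` unramified extension `N₀` of `F₀ = K(X, Y)` in `Ω`: the
compositum of the finite Galois extensions in `Ω` of `K̄ F₀` whose degree is a power of `ℓ` and in
which no valuation ring over `K̄` ramifies. -/
noncomputable def ProEll (X Y : F) : Set Ω :=
  Pool.Agent.Y157.PS.geomPro ℓ K (IntermediateField.adjoin K {X, Y}) Ω

end definitions

/-- The place `p` is above the point `(a : b : c)`: the point `(X : Y : 1)` specialises at `p` to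
`(a : b : c)`. -/
def IsAbove {K F N C : Type} [Field K] [Field F] [Field N] [Field C] [Algebra F N] [Algebra K N]
    [Algebra K C] (p : Plc K N C) (X Y : F) (a b c : K) : Prop :=
  ∃ u : N, u ≠ 0 ∧ p.val (u * algebraMap F N X) (algebraMap K C a) ∧
    p.val (u * algebraMap F N Y) (algebraMap K C b) ∧ p.val u (algebraMap K C c)

/-- The extension `N₀` is contained in the maximal extension of `F` which is unramified at a set `U`
of valuation rings over `K`; so the theorem applies to the fundamental group of every curve with
function field `F`. -/
theorem fermatPro_unramified {K F Ω : Type} [Field K] [CharZero K] [Field F] [Field Ω]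
    [Algebra K F] [Algebra F Ω] [Algebra K Ω] [IsScalarTower K F Ω] [IsAlgClosed Ω]
    [Algebra.IsAlgebraic F Ω] (ℓ : ℕ) [Fact ℓ.Prime] {m : ℕ} (hm : m ≠ 0) (x y : F)
    (hx : Transcendental K x) (hF : Algebra.IsAlgebraic (IntermediateField.adjoin K {x}) F)
    (hxy : x ^ (ℓ * m) + y ^ (ℓ * m) = 1) (U : Set (ValuationSubring F))
    (hU : ∀ O ∈ U, ∀ c : K, algebraMap K F c ∈ O) :
    ProEll ℓ K Ω (x ^ m) (y ^ m) ⊆ unramified F Ω U :=
  fun z hz => Pool.Agent.Y158.GR.geomPro_unr ℓ hm x y hx hF hxy U hU z hz

end Pool.Agent.Results.MP_c1dca2_ag.KummerProEll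

open Pool.Agent.Results.MP_c1dca2_ag.KummerProEll in
/-- **The section conjecture for Fermat curves of regular prime degree, relative to the prime above
`ℓ`.**  Let `ℓ` be an odd prime that does not divide the class number of `K = ℚ(ζ_ℓ)`, let `F` be a
function field of transcendence degree one over `K` with algebraic closure `Ω`, and let `x`, `y` be
elements of `F`, not constant, with `x ^ (ℓ m) + y ^ (ℓ m) = 1`.  Let `N` be an extension of `F` in
`Ω` which contains `ProEll ℓ K Ω (x ^ m) (y ^ m)`, let `s` be a section of `Gal(N/F) → G_K`, and let
`p` be a place of `N` with values in the algebraic closure of the completion of `K` at the place `v`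
above `ℓ` that gives `s` over this completion.  Then `p` is above a `K`-rational point of the
Fermat curve of degree `ℓ` with a coordinate `0`, and `s` is, on `ProEll ℓ K Ω (x ^ m) (y ^ m)`, a
section with values in the decomposition group of `p`. -/
theorem Pool.Agent.Results.MP_c1dca2_ag.KummerProEll.result
    (ℓ : ℕ) [Fact ℓ.Prime] (hℓ : ℓ ≠ 2) (K : Type) [Field K] [NumberField K]
    [IsCyclotomicExtension {ℓ} ℚ K] (hreg : ¬ ℓ ∣ classNumber K) (m : ℕ) (hm : m ≠ 0)
    (F Ω B : Type) [Field F] [Field Ω] [Field B] [Algebra K F] [Algebra F Ω] [Algebra K Ω]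
    [Algebra K B] [IsScalarTower K F Ω] [IsAlgClosed Ω] [Algebra.IsAlgebraic F Ω]
    [IsAlgClosure K B] (x y : F) (hx : Transcendental K x)
    (hF : Algebra.IsAlgebraic (IntermediateField.adjoin K {x}) F)
    (hxy : x ^ (ℓ * m) + y ^ (ℓ * m) = 1) (N : IntermediateField F Ω)
    (hN : ProEll ℓ K Ω (x ^ m) (y ^ m) ⊆ N) (s : GalSection K F N B)
    (v : HeightOneSpectrum (𝓞 K)) (hv : (ℓ : 𝓞 K) ∈ v.asIdeal)
    (p : Plc K N (AlgebraicClosure (v.adicCompletion K)))
    (hp : s.GivenBy (v.adicCompletion K) p) :
    (∃ a b c : K, a ^ ℓ + b ^ ℓ = c ^ ℓ ∧ a * b * c = 0 ∧ (a ≠ 0 ∨ b ≠ 0) ∧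
      IsAbove p (x ^ m) (y ^ m) a b c) ∧
    ∀ (g : B ≃ₐ[K] B) (z : N), (z : Ω) ∈ ProEll ℓ K Ω (x ^ m) (y ^ m) →
      (s.s g z ∈ p.W ↔ z ∈ p.W) := by
  have hℓp : ℓ.Prime := Fact.out
  have hℓ2 : 2 < ℓ := lt_of_le_of_ne hℓp.two_le (Ne.symm hℓ)
  have hodd : Odd ℓ := hℓp.odd_of_ne_two hℓ
  have hcop : (classNumber K).Coprime ℓ := ((Nat.Prime.coprime_iff_not_dvd hℓp).2 hreg).symm
  have hKL := Pool.Agent.Y158.KL.kummer_lemma (IsCyclotomicExtension.zeta_spec ℓ ℚ K) hℓ2 hcop
  obtain ⟨ζ, hζ⟩ : ∃ ζ : K, IsPrimitiveRoot ζ ℓ := ⟨_, IsCyclotomicExtension.zeta_spec ℓ ℚ K⟩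
  have hvl : v = Pool.Agent.Y158.KL.lam hζ := by
    by_contra hne
    exact Pool.Agent.Y158.GR.ell_notMem hζ hne hv
  subst hvl
  obtain ⟨h1, h2⟩ := Pool.Agent.Y158.GR.genMain hζ hodd hcop hKL hm x y hx hF hxy N hN s p hp
  refine ⟨?_, h2⟩
  have hx0 : x ^ m ≠ 0 := by
    intro h0
    apply hx
    rw [pow_eq_zero_iff hm |>.1 h0]
    exact isAlgebraic_zero
  obtain ⟨a, b, c, h3, h4, h5, h6⟩ := Pool.Agent.Y158.GR.rat_pt (p := p) hℓp.pos hodd hζ
    (X := algebraMap F N (x ^ m)) (Y := algebraMap F N (y ^ m)) ((_root_.map_ne_zero _).2 hx0) (by
      rw [← map_pow, ← map_pow, ← map_add, ← pow_mul, ← pow_mul, mul_comm m ℓ, hxy, map_one]) (by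
      have hpow : ∀ {w : N}, p.val w 0 → p.val (w ^ m) 0 := by
        intro w hw
        have := hw.pow m
        rwa [zero_pow hm] at this
      rcases h1 with h | h | h
      · exact Or.inl (by rw [map_pow]; exact hpow h)
      · exact Or.inr (Or.inl (by rw [map_pow]; exact hpow h))
      · exact Or.inr (Or.inr (by rw [map_pow, ← inv_pow]; exact hpow h)))
  exact ⟨a, b, c, h3, h4, h5, h6⟩
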