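import Pool.Agent.Y157.PC.All
import Pool.Agent.Y157.PS.TwQ
import Pool.Agent.W623.SecG.Loc2

/-!
# At every finite level the sections of 100% of the twists act like one rational point

Let `N ≥ 6` be even and let `e_1, …, e_N` be different integers which satisfy the condition `CrossRatio`
below, for instance `0, 1, 2, 3, 4, 5`.  Let `R = ℚ(x)` be a rational function field and `Ω` an
algebraic closure of `R`.  For squarefree `d` let `C_d` be the curve `d y² = ∏ (x - e_k)`, of genus
`N/2 - 1 ≥ 2`, with function field `F = R(y) ⊆ Ω` and with the rational points `P_k = (e_k, 0)`.  Let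
`M ⊆ Ω` be the maximal pro-2 extension of `ℚ̄ F` which is unramified over `C_d`; this field does not
depend on `d`, since `ℚ̄ F = ℚ̄(x, √∏ (x - e_k))`.  Let `F_U` be the maximal extension of `F` unramified
over `U`, where `U` is `C_d` or an open subcurve, so that `π₁(U) = Gal(F_U/F)`, and `M ⊆ F_U`.

**Theorem.**  Let `L ⊆ Ω` be a finite Galois extension of `ℚ(x)`.  There are `δ > 0` and `C`, such that
for all squarefree `d`, `|d| ≤ X`, with at most `C X (log X)^(-δ)` exceptions, the following is true for
every section `s : G_ℚ → π₁(U)`, provided that `L ⊆ M`.  There is exactly one branch point `P_i` such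
that `s` is attached to `P_i` modulo 2.  If `L/ℚ(x)` is unramified over `x = e_i`, then for every
`σ ∈ G_ℚ` there are a place `W` of `F_U` above `P_i` and an element `τ` of the decomposition group of
`W` in `π₁(U)` which has the image `σ` in `G_ℚ` and which is equal to `s(σ)` on the finite extension
`L F` of `F`, even on `ℚ̄ L F`.

So at every finite level `L`, and for every `σ`, the image of `s(σ)` in `Gal(L F/F)` is conjugate to
the image of `s_i(σ)`, where `s_i` is the section of the rational point `P_i`, and the conjugation is by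
an element of the geometric fundamental group.  The sections are arbitrary; it is not assumed that they
are locally geometric.  The fields `L` in question are the finite levels of the fundamental groups of
the orbifolds given by the projective line over `ℚ` with the points `e_k`, `k ≠ i`, of order 2, with
the geometric fundamental group replaced by its pro-2 completion.  (The group is the free product of
`N - 1` groups of order 2 modulo the product of their generators, an infinite nonabelian pro-2 group.)

In `MP_896029_ag.BranchPoints` the first part, on the image of `s` in the Galois group of one abelian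
extension of exponent 2 of `ℚ̄(x, y)`, was proved, and in `MP_2f3286_ag.OnePointLocally` the second part
was proved for the local sections at the primes dividing `d`, where all of `M` can be taken for `L`.
The second part here is global, it concerns all `σ ∈ G_ℚ`, and `L` can be any nonabelian finite level.

The fundamental group is described through valuations.  Let `U` be a smooth geometrically connected
curve over `k` with function field `F`, let `Ω` be an algebraic closure of `F`, and let `F_U` be the
maximal extension of `F` inside `Ω` which is unramified over the closed points of `U`, that is, over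
their local rings, which are valuation rings of `F`.  Then `π₁(U) = Gal(F_U/F)`, and the map
`π₁(U) → G_k` is the restriction of automorphisms to the algebraic closure of `k` in `Ω`.

Proof.  Let `s` be a section for `d` which is attached to `P_i` modulo 2; this is true for all sections
and some `i`, for almost all `d` (part G3 of helper262, parts SecC, SecE, SecG of helper623).  The
section induces a homomorphism `ψ` from `G_ℚ` to the finite group `Gal(L/ℚ(x))`, which does not depend on
`d`.  (1) Let `p` be a prime that does not divide `2 d ∏ (e_j - e_k)`, and let `σ` be in the inertia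
group of a place `V` of `ℚ̄` above `p`.  The weight argument (finiteness of the class group of a function
field over a finite field) shows that `s(σ)` acts as the identity on the residue field of the
prolongation of the Gauss valuation at `V` to `M`; so `ψ` is unramified at `p`, if `p` is not in a
finite set `S` which depends only on `L`.  (2) Let `p ∣ d`, `p ∉ S`.  By the local theorem
(`OnePointLocally`) the image of the decomposition group `D_V` under `s` fixes a place `W` of `M` above
`P_i`.  Since `L` is unramified above `e_i` and `σ ∈ D_V` acts on the values of the functions at `W`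
as `σ`, `ψ` is again unramified at `p`, and for `σ ∈ D_V` the element `ψ(σ)` is in the
decomposition group of a place above `e_i` of `L` and acts as `σ` on its residue field.  (3) By (1) and
(2) and the theorem of Hermite and Minkowski there are only finitely many possibilities for `ψ`, for
all `d` together.  If for one of them there is `σ` such that `ψ(σ)` is not of the form described in (2),
then by the theorem of Chebotarev this is so for a set of primes of positive density, by (2) no
prime of this set divides `d`, and the number of these `d`, `|d| ≤ X`, is at most `C X (log X)^(-δ)`.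
-/

open Polynomial

namespace Pool.Agent.Results.MP_c1dca2_ag.SectionsAtFiniteLevels

section definitions

variable (ℓ : ℕ) (k F Ω : Type) [Field k] [Field F] [Field Ω] [Algebra k F] [Algebra F Ω]
  [Algebra k Ω]

/-- The inertia group of the valuation ring `W` of `Ω`, as a subgroup of `Gal(Ω/F)`: the
automorphisms of `Ω` over `F` that map `W` onto itself and act as the identity on its residue
field. -/
noncomputable def inertia (W : ValuationSubring Ω) : Subgroup (Ω ≃ₐ[F] Ω) :=
  (W.inertiaSubgroup F).map (W.decompositionSubgroup F).subtype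

/-- `F_U`, for a set `U` of valuation rings of `F`: the elements of `Ω` fixed by the inertia groups
of all valuation rings `W` of `Ω` with `W ∩ F ∈ U`.  If `Ω` is an algebraic closure of a field `F`
of characteristic zero, this is the maximal extension of `F` in `Ω` unramified over `U`. -/
noncomputable def unramified (U : Set (ValuationSubring F)) : IntermediateField F Ω :=
  ⨅ W : {W : ValuationSubring Ω // W.comap (algebraMap F Ω) ∈ U},
    IntermediateField.fixedField (inertia F Ω W.1)

/-- `k̄ F`, the compositum of `F` and of the algebraic closure of `k` in `Ω`. -/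
noncomputable def geomField : IntermediateField F Ω :=
  IntermediateField.adjoin F (algebraicClosure k Ω : Set Ω)

/-- The algebraic extension `L` of `K` in `Ω` is unramified at all valuation rings of `Ω` that
contain `k`: every nonzero element of `L` has the same valuation as an element of `K`.  (If `K` is
a function field of one variable over the algebraic closure of `k` and `k` has characteristic zero,
then this says that `L/K` is unramified over all points of the smooth projective curve.) -/
def Unramified {k K Ω : Type} [Field k] [Field K] [Field Ω] [Algebra k Ω] [Algebra K Ω]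
    (L : IntermediateField K Ω) : Prop :=
  ∀ W : ValuationSubring Ω, (∀ c : k, algebraMap k Ω c ∈ W) → ∀ z ∈ L, z ≠ 0 →
    ∃ t : K, t ≠ 0 ∧ z / algebraMap K Ω t ∈ W ∧ (z / algebraMap K Ω t)⁻¹ ∈ W

/-- `L/K` is a finite Galois extension whose degree is a power of `ℓ`. -/
def FiniteProEll (ℓ : ℕ) {K Ω : Type} [Field K] [Field Ω] [Algebra K Ω]
    (L : IntermediateField K Ω) : Prop :=
  FiniteDimensional K L ∧ IsGalois K L ∧ ∃ m : ℕ, Module.finrank K L = ℓ ^ m

/-- The maximal unramified pro-`ℓ` extension of `K` in `Ω`: the compositum of the finite Galois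
extensions of `K` whose degree is a power of `ℓ` and which are unramified. -/
noncomputable def maxProEll (ℓ : ℕ) (k K Ω : Type) [Field k] [Field K] [Field Ω] [Algebra k Ω]
    [Algebra K Ω] : IntermediateField K Ω :=
  ⨆ L : {L : IntermediateField K Ω // FiniteProEll ℓ L ∧ Unramified (k := k) L}, L.1

/-- `M`, the maximal unramified pro-`ℓ` extension of `k̄ F` in `Ω`, as an extension of `F`. -/
noncomputable def proEllField : IntermediateField F Ω :=
  (maxProEll ℓ k (geomField k F Ω) Ω).restrictScalars F

/-- The map `τ : M → M` acts as `σ : K → K` on the elements that the fields `K` and `M` have in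
common when they are regarded as subfields of `Ω` through `i` and `j`. -/
def ActsAs {K M Ω : Type} [Field K] [Field M] [Field Ω] (i : K →+* Ω) (j : M →+* Ω) (σ : K → K)
    (τ : M → M) : Prop :=
  ∀ c z, j z = i c → j (τ z) = i (σ c)

/-- Let `k ⊆ K ⊆ Ω` and `F ⊆ N ⊆ Ω` be fields.  A splitting of `Gal(N/F) → Gal(K/k)`: a continuous
homomorphism `s` from `Gal(K/k)` to `Gal(N/F)` such that `s(σ)` acts as `σ` on the elements of
`K ∩ N`. -/
structure Splitting (K N : Type) [Field K] [Field N] [Algebra k K] [Algebra F N] [Algebra K Ω]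
    [Algebra N Ω] where
  /-- the homomorphism `Gal(K/k) → Gal(N/F)` -/
  toHom : (K ≃ₐ[k] K) →* (N ≃ₐ[F] N)
  cont : Continuous toHom
  compat : ∀ σ : K ≃ₐ[k] K, ActsAs (algebraMap K Ω) (algebraMap N Ω) σ (toHom σ)

/-- The sections of `π₁(U) = Gal(F_U/F) → G_k`: the continuous homomorphisms `s` from
`G_k = Gal(k̄/k)` to `Gal(F_U/F)`, where `k̄` is the algebraic closure of `k` in `Ω`, such that
`s(σ)` acts as `σ` on the elements of `k̄`. -/
abbrev GaloisSection (U : Set (ValuationSubring F)) : Type :=
  Splitting k F Ω (algebraicClosure k Ω) (unramified F Ω U)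

end definitions

section attached

variable {k F N L Ω K : Type} [Field k] [Field F] [Field N] [Field L] [Field Ω] [Algebra k F]
  [Algebra F Ω] [Algebra k Ω] [Algebra k L] [Algebra F N] [Algebra L Ω] [Algebra N Ω]

/-- `z` is algebraic over `k`, where `k` is mapped to `M` by `i`. -/
def AlgOver {k M : Type} [Field k] [Field M] (i : k →+* M) (z : M) : Prop :=
  ∃ p : k[X], p ≠ 0 ∧ p.eval₂ i z = 0

/-- The subfield `M₂` of the extension `N` of `F`, generated over `F` by all elements of `N` that are
algebraic over `k`, and by all square roots in `N` of the functions `(x - e_i)/(x - e_j)`. -/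
def M₂ (j : F →+* N) (e : K → k) (x : F) : Subfield N :=
  Subfield.closure (Set.range j ∪ {z | AlgOver (j.comp (algebraMap k F)) z} ∪
    {z | ∃ i i', z ^ 2 * j (x - algebraMap k F (e i')) = j (x - algebraMap k F (e i))})

/-- The valuation ring `W` of `N` contains `k`, and the function `t ∈ F` is in its maximal ideal.  For
`t = x - e_i` this says that `W` is a prolongation of the valuation ring of `F` at the branch point
`P_i`. -/
def ZeroAt (k : Type) {F N : Type} [Field k] [Field F] [Field N] [Algebra k F] [Algebra F N]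
    (W : ValuationSubring N) (t : F) : Prop :=
  (∀ c : k, algebraMap F N (algebraMap k F c) ∈ W) ∧ algebraMap F N t ∈ W.nonunits

/-- The splitting `s` of `Gal(N/F) → Gal(L/k)` is attached modulo 2 to the branch point `P_i`: there
is a valuation ring `W` of `N` above `P_i`, such that the image of `s` lies in the decomposition group
of `W ∩ M₂`. -/
def AttachedModTwo (e : K → k) (x : F) (s : Splitting k F Ω L N) (i : K) : Prop :=
  ∃ W : ValuationSubring N, ZeroAt k W (x - algebraMap k F (e i)) ∧
    ∀ z ∈ M₂ (algebraMap F N) e x, ∀ σ, s.toHom σ z ∈ W ↔ z ∈ W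

/-- The splitting `s` of `Gal(N/F) → Gal(L/k)` is pointwise given, on the subset `E` of `Ω`, by the point
where the function `t ∈ F` vanishes (the branch point `P_i` for `t = x - e_i`): for every
`σ ∈ Gal(L/k)` there are a valuation ring `W` of `N` above this point and an element `τ` of its
decomposition group in `Gal(N/F)`, such that `τ` acts as `σ` on the elements of `L`, and
`τ z = s(σ) z` for all `z ∈ E`. -/
def PointwiseAt (s : Splitting k F Ω L N) (t : F) (E : Set Ω) : Prop :=
  ∀ σ : L ≃ₐ[k] L, ∃ (W : ValuationSubring N) (τ : N ≃ₐ[F] N), ZeroAt k W t ∧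
    (∀ z, τ z ∈ W ↔ z ∈ W) ∧ ActsAs (algebraMap L Ω) (algebraMap N Ω) σ τ ∧
    ∀ z : N, algebraMap N Ω z ∈ E → τ z = s.toHom σ z

end attached

section levels

variable (k : Type) {R Ω : Type} [Field k] [Field R] [Field Ω] [Algebra k R] [Algebra R Ω]
  [Algebra k Ω]

/-- The extension `L` of `R = k(x)` in `Ω` is unramified over the point `x = e`: at all valuation rings
of `Ω` that contain `k` and in whose maximal ideal is `x - e`, every nonzero element of `L` has the
same valuation as an element of `R`. -/
def UnramifiedOver (x : R) (e : k) (L : IntermediateField R Ω) : Prop :=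
  ∀ W : ValuationSubring Ω, (∀ c : k, algebraMap k Ω c ∈ W) →
    algebraMap R Ω x - algebraMap k Ω e ∈ W.nonunits → ∀ z ∈ L, z ≠ 0 →
    ∃ t : R, t ≠ 0 ∧ z / algebraMap R Ω t ∈ W ∧ (z / algebraMap R Ω t)⁻¹ ∈ W

/-- Let `F = R(y) ⊆ Ω` be the function field of the curve `d y² = ∏ (x - e_i)` over `k`, where
`R = k(x)`, let `M` be the maximal unramified pro-2 extension of `k̄ F` in `Ω`, and let `L ⊆ M`.  For
every set `U` of valuation rings of `F` over `k` and every section of `π₁(U) → G_k` there is a branch
point `P_i` such that the section is attached to `P_i` and to no other branch point modulo 2, and if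
`L/R` is unramified over `x = e_i`, then the section is on `L` pointwise given by `P_i`. -/
def SectionsActLikePoints [IsScalarTower k R Ω] {K : Type} [Fintype K] (e : K → ℤ) (d : ℤ) (x : R)
    (L : IntermediateField R Ω) : Prop :=
  ∀ y : Ω, algebraMap k Ω (d : k) * y ^ 2 =
      ∏ i, (algebraMap R Ω x - algebraMap k Ω (e i : k)) →
    (∀ z ∈ L, z ∈ proEllField 2 k (IntermediateField.adjoin R {y}) Ω) →
    ∀ U : Set (ValuationSubring (IntermediateField.adjoin R {y})),
    (∀ O ∈ U, ∀ c : k, algebraMap k (IntermediateField.adjoin R {y}) c ∈ O) →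
    ∀ s : GaloisSection k (IntermediateField.adjoin R {y}) Ω U, ∃ i : K,
      (∀ j, AttachedModTwo (fun j => (e j : k)) (algebraMap R (IntermediateField.adjoin R {y}) x)
        s j ↔ j = i) ∧
      (UnramifiedOver k x (e i : k) L → PointwiseAt s
        (algebraMap R (IntermediateField.adjoin R {y}) x -
          algebraMap k (IntermediateField.adjoin R {y}) (e i : k)) (L : Set Ω))

end levels

/-- The condition on the branch points: for `i ≠ k` there are `l, l'` different from `i` and `k`, such
that the integer `(e_i - e_l) (e_i - e_l') (e_k - e_l) (e_k - e_l')` is not a square. -/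
def CrossRatio {K : Type} (e : K → ℤ) : Prop :=
  ∀ i k, i ≠ k → ∃ l l', l ≠ i ∧ l ≠ k ∧ l' ≠ i ∧ l' ≠ k ∧
    ¬ IsSquare ((e i - e l) * (e i - e l') * ((e k - e l) * (e k - e l')))

lemma iSup_congr_prop {α : Type} [CompleteLattice α] {P Q : α → Prop} (h : ∀ L, P L ↔ Q L) :
    (⨆ L : {L // P L}, L.1) = ⨆ L : {L // Q L}, L.1 := by
  have h1 : P = Q := funext fun L => propext (h L)
  subst h1
  rfl

lemma proEll_eq (ℓ : ℕ) (k F Ω : Type) [Field k] [Field F] [Field Ω] [Algebra k F] [Algebra F Ω]
    [Algebra k Ω] : proEllField ℓ k F Ω = Pool.Agent.Y157.PS.geomPro ℓ k F Ω := by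
  unfold proEllField Pool.Agent.Y157.PS.geomPro maxProEll Pool.Agent.Y157.PS.maxPro
  congr 1
  refine iSup_congr_prop fun L => ?_
  constructor
  · rintro ⟨⟨h1, h2, h3⟩, h4⟩
    refine ⟨⟨h1, h2, h3⟩, fun W hW z hz hz0 => ?_⟩
    obtain ⟨t, ht, h5, h6⟩ := h4 W hW z hz hz0
    exact ⟨t, ht, div_ne_zero hz0 ((_root_.map_ne_zero _).2 ht), h5, h6⟩
  · rintro ⟨⟨h1, h2, h3⟩, h4⟩
    refine ⟨⟨h1, h2, h3⟩, fun W hW z hz hz0 => ?_⟩
    obtain ⟨t, ht, -, h5, h6⟩ := h4 W hW z hz hz0
    exact ⟨t, ht, h5, h6⟩

lemma M₂_eq {k F Ω : Type} [Field k] [Field F] [Field Ω] [Algebra k F]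
    [Algebra F Ω] [Algebra k Ω] [IsScalarTower k F Ω] (U : Set (ValuationSubring F)) {K : Type}
    (e : K → k) (x : F) : M₂ (algebraMap F (unramified F Ω U)) e x =
      (Pool.Agent.W623.SecG.Mtwo (Ω := Ω) k U e x).toSubfield := by
  have halg : ∀ z : unramified F Ω U,
      AlgOver ((algebraMap F (unramified F Ω U)).comp (algebraMap k F)) z ↔ IsAlgebraic k z := by
    intro z
    have h1 : (algebraMap F (unramified F Ω U)).comp (algebraMap k F) =
        algebraMap k (unramified F Ω U) := by
      ext c
      exact (IsScalarTower.algebraMap_apply k F Ω c).symm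
    unfold AlgOver
    rw [h1]
    rfl
  have hset : (Set.range (algebraMap F (unramified F Ω U)) ∪
      {z | AlgOver ((algebraMap F (unramified F Ω U)).comp (algebraMap k F)) z} ∪
      {z | ∃ i i', z ^ 2 * (algebraMap F (unramified F Ω U)) (x - algebraMap k F (e i')) =
        (algebraMap F (unramified F Ω U)) (x - algebraMap k F (e i))}) =
      Set.range (algebraMap F (unramified F Ω U)) ∪ ({z | IsAlgebraic k z} ∪
        {z | ∃ i j, z ^ 2 * algebraMap F _ (x - algebraMap k F (e j)) =
          algebraMap F _ (x - algebraMap k F (e i))}) := by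
    rw [Set.union_assoc]
    congr 2
    ext z
    exact halg z
  unfold M₂
  rw [hset]
  rfl

lemma crossRatio_ex : CrossRatio (fun i : Fin 6 => (i : ℤ)) := by
  have h : ∀ i k : Fin 6, i ≠ k → ∃ l l' : Fin 6, l ≠ i ∧ l ≠ k ∧ l' ≠ i ∧ l' ≠ k ∧
      (((i : ℕ) : ℤ) - ((l : ℕ) : ℤ)) * (((i : ℕ) : ℤ) - ((l' : ℕ) : ℤ)) *
        ((((k : ℕ) : ℤ) - ((l : ℕ) : ℤ)) * (((k : ℕ) : ℤ) - ((l' : ℕ) : ℤ))) < 900 ∧
      ∀ r : Fin 30, (((i : ℕ) : ℤ) - ((l : ℕ) : ℤ)) * (((i : ℕ) : ℤ) - ((l' : ℕ) : ℤ)) *
        ((((k : ℕ) : ℤ) - ((l : ℕ) : ℤ)) * (((k : ℕ) : ℤ) - ((l' : ℕ) : ℤ))) ≠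
        ((r : ℕ) : ℤ) * ((r : ℕ) : ℤ) := by
    decide
  intro i k hik
  obtain ⟨l, l', h1, h2, h3, h4, h5, h6⟩ := h i k hik
  refine ⟨l, l', h1, h2, h3, h4, ?_⟩
  rintro ⟨r, hr⟩
  simp only at hr
  rw [hr] at h5
  have h7 : r.natAbs < 30 := by
    by_contra hge
    push Not at hge
    have h8 : (r.natAbs : ℤ) * (r.natAbs : ℤ) = r * r := Int.natAbs_mul_self
    have h9 : (30 : ℤ) ≤ (r.natAbs : ℤ) := by exact_mod_cast hge
    nlinarith
  apply h6 ⟨r.natAbs, h7⟩
  rw [hr]
  exact Int.natAbs_mul_self.symm

/-- the field generated by `x` and `y` -/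
lemma adjoin_top {k R Ω : Type} [Field k] [Field R] [Field Ω] [Algebra k R] [Algebra R Ω]
    [Algebra k Ω] [IsScalarTower k R Ω] (x : R) (hR : IntermediateField.adjoin k {x} = ⊤) (y : Ω) :
    IntermediateField.adjoin k {algebraMap R (IntermediateField.adjoin R {y}) x,
      (⟨y, IntermediateField.mem_adjoin_simple_self R y⟩ : IntermediateField.adjoin R {y})} =
      (⊤ : IntermediateField k (IntermediateField.adjoin R {y})) := by
  set F := IntermediateField.adjoin R {y} with hF
  set T := IntermediateField.adjoin k {algebraMap R F x,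
      (⟨y, IntermediateField.mem_adjoin_simple_self R y⟩ : F)} with hT
  have h1 : ∀ r : R, algebraMap R F r ∈ T := by
    intro r
    have h2 : r ∈ IntermediateField.adjoin k {x} := by rw [hR]; trivial
    refine Pool.Agent.Y157.PS.adjoin_le_sub (T := T.toSubfield.comap (algebraMap R F)) ?_ ?_ r h2
    · intro c
      rw [Subfield.mem_comap, ← IsScalarTower.algebraMap_apply k R F]
      exact T.algebraMap_mem c
    · intro z hz
      rw [Set.mem_singleton_iff] at hz
      rw [hz, Subfield.mem_comap]
      exact IntermediateField.subset_adjoin k _ (Set.mem_insert _ _)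
  rw [eq_top_iff]
  rintro ⟨z, hz⟩ -
  have h3 : ∀ w ∈ F, w ∈ T.toSubfield.map (algebraMap F Ω) := by
    refine Pool.Agent.Y157.PS.adjoin_le_sub ?_ ?_
    · intro r
      exact ⟨algebraMap R F r, h1 r, rfl⟩
    · intro w hw
      rw [Set.mem_singleton_iff] at hw
      rw [hw]
      exact ⟨_, IntermediateField.subset_adjoin k _ (Set.mem_insert_of_mem _ rfl), rfl⟩
  obtain ⟨w, hw, hwz⟩ := h3 z hz
  have h4 : w = ⟨z, hz⟩ := Subtype.ext hwz
  rw [← h4]
  exact hw

/-- the result for one level, one `d` and one branch point, for arbitrary normal extensions `N` -/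
def LevStm (k : Type) {R Ω : Type} [Field k] [Field R] [Field Ω] [Algebra k R] [Algebra R Ω]
    [Algebra k Ω] [IsScalarTower k R Ω] {K : Type} [Fintype K] (e : K → ℤ) (d : ℤ) (x : R)
    (L : IntermediateField R Ω) (i : K) : Prop :=
  ∀ (F : IntermediateField R Ω) (y : F),
    algebraMap k F (d : k) * y ^ 2 = ∏ i, (algebraMap R F x - algebraMap k F (e i : k)) →
    IntermediateField.adjoin k {algebraMap R F x, y} = (⊤ : IntermediateField k F) →
    ∀ N : IntermediateField F Ω, Normal F N →
    Pool.Agent.Y157.PS.geomPro 2 k F Ω ≤ N →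
    (∀ z ∈ L, z ∈ Pool.Agent.Y157.PS.geomPro 2 k F Ω) →
    ∀ s : (algebraicClosure k Ω ≃ₐ[k] algebraicClosure k Ω) →* (N ≃ₐ[F] N), Continuous s →
    (∀ σ (c : algebraicClosure k Ω) (z : N), (z : Ω) = (c : Ω) → (s σ z : Ω) = (σ c : Ω)) →
    (∀ p : ℕ, p.Prime → (p : ℤ) ∣ d → ¬ (p : ℤ) ∣ 2 →
      (∀ j k, j ≠ k → ¬ (p : ℤ) ∣ e j - e k) →
      ∀ V : ValuationSubring (algebraicClosure k Ω), (p : algebraicClosure k Ω) ∈ V.nonunits →
      ∃ W : ValuationSubring N, (∀ c : k, algebraMap F N (algebraMap k F c) ∈ W) ∧
        algebraMap F N (algebraMap R F x - algebraMap k F (e i : k)) ∈ W.nonunits ∧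
        ∀ σ : algebraicClosure k Ω ≃ₐ[k] algebraicClosure k Ω, Pool.Agent.Y157.PS.Dec V σ →
          ∀ z : N, (z : Ω) ∈ Pool.Agent.Y157.PS.geomPro 2 k F Ω → (s σ z ∈ W ↔ z ∈ W)) →
    ∀ σ : algebraicClosure k Ω ≃ₐ[k] algebraicClosure k Ω,
      ∃ (W : ValuationSubring N) (τ : N ≃ₐ[F] N),
        (∀ c : k, algebraMap F N (algebraMap k F c) ∈ W) ∧
        algebraMap F N (algebraMap R F x - algebraMap k F (e i : k)) ∈ W.nonunits ∧
        (∀ z, τ z ∈ W ↔ z ∈ W) ∧
        (∀ z : N, (z : Ω) ∈ L → τ z = s σ z) ∧
        ∀ (z : N) (c : algebraicClosure k Ω), (z : Ω) = (c : Ω) → τ z = s σ z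

/-- one value of `d` -/
lemma acts_of (k : Type) [Field k] [CharZero k] {K : Type} [Fintype K] [DecidableEq K]
    (e : K → ℤ) (he : Function.Injective e) (hev : Even (Fintype.card K)) (d : ℤ) (hd : d ≠ 0)
    (hCR : ∀ i j, i ≠ j → ∃ l l', l ≠ i ∧ l ≠ j ∧ l' ≠ i ∧ l' ≠ j ∧
      ¬ IsSquare (((e i : k) - e l) * (e i - e l') * ((e j - e l) * (e j - e l'))))
    (hloc : ∀ p : ℕ, p.Prime → (p : ℤ) ∣ d → ¬ (p : ℤ) ∣ 2 →
      (∀ j k, j ≠ k → ¬ (p : ℤ) ∣ e j - e k) → Pool.Agent.Y157.PS.TwStm k e d p)
    (hex : ∀ (F Ω : Type) [Field F] [Field Ω] [Algebra k F] [Algebra F Ω]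
      [Algebra k Ω] [IsScalarTower k F Ω] [IsAlgClosed Ω] [Algebra.IsAlgebraic F Ω]
      (U : Set (ValuationSubring F)) (G : Pool.Agent.W620.SC.GSection k F Ω U) (x y : F),
      (∀ O ∈ U, ∀ c : k, algebraMap k F c ∈ O) → Transcendental k x →
      algebraMap k F (d : k) * y ^ 2 = ∏ i, (x - algebraMap k F (e i : k)) →
      ∃ i, Pool.Agent.W623.SecG.AtK G x (fun j => (e j : k)) i)
    {R Ω : Type} [Field R] [Field Ω] [Algebra k R] [Algebra R Ω] [Algebra k Ω]
    [IsScalarTower k R Ω] [IsAlgClosure R Ω] (x : R) (hx : Transcendental k x)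
    (hR : IntermediateField.adjoin k {x} = ⊤) (L : IntermediateField R Ω)
    (hlev : ∀ i : K, UnramifiedOver k x (e i : k) L → LevStm k e d x L i) :
    SectionsActLikePoints k e d x L := by
  intro y hy hLM U hU s
  have hcl : IsAlgClosed Ω := IsAlgClosure.isAlgClosed R
  have halgR : Algebra.IsAlgebraic R Ω := IsAlgClosure.isAlgebraic
  have halg : Algebra.IsAlgebraic (IntermediateField.adjoin R {y}) Ω :=
    Algebra.IsAlgebraic.tower_top (K := R) (IntermediateField.adjoin R {y})
  have htw : IsScalarTower k (IntermediateField.adjoin R {y}) Ω :=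
    IsScalarTower.of_algebraMap_eq fun _ => rfl
  have hek : Function.Injective (fun j => (e j : k)) := by
    intro i j hij
    apply he
    have h1 : (e i : k) = (e j : k) := hij
    exact_mod_cast h1
  have hdk : (d : k) ≠ 0 := by exact_mod_cast hd
  have hF := adjoin_top (k := k) x hR y
  have hx' : Transcendental k (algebraMap R (IntermediateField.adjoin R {y}) x) :=
    (transcendental_algebraMap_iff (R := k)
      (algebraMap R (IntermediateField.adjoin R {y})).injective (a := x)).2 hx
  obtain ⟨yF, hyF⟩ : ∃ yF : IntermediateField.adjoin R {y},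
      yF = ⟨y, IntermediateField.mem_adjoin_simple_self R y⟩ := ⟨_, rfl⟩
  have hxy : algebraMap k (IntermediateField.adjoin R {y}) (d : k) * yF ^ 2 =
      ∏ i, (algebraMap R (IntermediateField.adjoin R {y}) x -
        algebraMap k (IntermediateField.adjoin R {y}) (e i : k)) := by
    apply (algebraMap (IntermediateField.adjoin R {y}) Ω).injective
    rw [map_mul, map_pow, map_prod,
      ← IsScalarTower.algebraMap_apply k (IntermediateField.adjoin R {y}) Ω, hyF]
    refine hy.trans (Finset.prod_congr rfl fun j _ => ?_)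
    rw [map_sub, ← IsScalarTower.algebraMap_apply k (IntermediateField.adjoin R {y}) Ω,
      ← IsScalarTower.algebraMap_apply R (IntermediateField.adjoin R {y}) Ω]
  rw [← hyF] at hF
  obtain ⟨i, hi⟩ := hex _ Ω U ⟨s.toHom, s.cont, s.compat⟩ _ yF hU hx' hxy
  have hat := Pool.Agent.W623.SecG.attached hU ⟨s.toHom, s.cont, s.compat⟩ (fun j => (e j : k)) hek
    (d : k) hdk _ yF hx' hxy hev i hF hi
  have hM := M₂_eq (Ω := Ω) U (fun j => (e j : k))
    (algebraMap R (IntermediateField.adjoin R {y}) x)
  have hmem : ∀ z, z ∈ M₂ (algebraMap (IntermediateField.adjoin R {y})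
      (unramified (IntermediateField.adjoin R {y}) Ω U)) (fun j => (e j : k))
        (algebraMap R (IntermediateField.adjoin R {y}) x) ↔
      z ∈ Pool.Agent.W623.SecG.Mtwo (Ω := Ω) k U (fun j => (e j : k))
        (algebraMap R (IntermediateField.adjoin R {y}) x) := fun z => by
    rw [hM]
    rfl
  refine ⟨i, fun j => ⟨fun hj => ?_, ?_⟩, fun hun => ?_⟩
  · by_contra hne
    obtain ⟨l, l', h1, h2, h3, h4, hsq⟩ := hCR i j (Ne.symm hne)
    apply hsq
    obtain ⟨W, hW1, hW2, -, hW3⟩ := hat
    obtain ⟨W', ⟨hW1', hW2'⟩, hW3'⟩ := hj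
    exact Pool.Agent.W623.SecG.attached_unique hU ⟨s.toHom, s.cont, s.compat⟩
      (fun j => (e j : k)) hek (d : k) hdk _ yF hx' hxy
      i j ⟨W, hW1, hW2, hW3⟩ ⟨W', hW1', hW2', fun z hz => hW3' z ((hmem z).2 hz)⟩ l l' h1 h2 h3 h4
  · rintro rfl
    obtain ⟨W, h1, h2, -, h4⟩ := hat
    exact ⟨W, ⟨h1, h2⟩, fun z hz => h4 z ((hmem z).1 hz)⟩
  · have halg2 : Algebra.IsAlgebraic (IntermediateField.adjoin k
        {algebraMap R (IntermediateField.adjoin R {y}) x}) (IntermediateField.adjoin R {y}) := by
      refine Pool.Agent.Y157.PS.alg_of_eqn (by norm_num : 0 < 2) (∏ j, (X - C (e j : k))) (d : k)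
        hdk _ yF ?_ hF
      rw [hxy, map_prod]
      refine Finset.prod_congr rfl fun j _ => ?_
      rw [map_sub, aeval_X, aeval_C]
    have hle := (Pool.Agent.Y157.PS.a_ind 2 k _ Ω _ hx' halg2 U hU).1
    have hLM' : ∀ z ∈ L, z ∈ Pool.Agent.Y157.PS.geomPro 2 k (IntermediateField.adjoin R {y}) Ω := by
      intro z hz
      rw [← proEll_eq]
      exact hLM z hz
    intro σ
    obtain ⟨W, τ, h1, h2, h3, h4, h5⟩ := hlev i hun (IntermediateField.adjoin R {y}) yF hxy hF
      (unramified (IntermediateField.adjoin R {y}) Ω U)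
      (Pool.Agent.Y157.PC.unr_normal U) hle hLM' s.toHom s.cont
      (fun σ c z hz => s.compat σ c z hz) (fun p hp hpd hp2 hpe V hV => by
        obtain ⟨W, ⟨⟨h1, h2⟩, h3⟩, -⟩ := hloc p hp hpd hp2 hpe
          (IntermediateField.adjoin R {y}) Ω U hU ⟨s.toHom, s.cont, s.compat⟩ _ yF hx' hxy hF i hi
          V hV
        exact ⟨W, h1, h2, fun σ hσ z hz => h3 σ hσ z hz⟩) σ
    refine ⟨W, τ, ⟨h1, h2⟩, h3, fun c z hz => ?_, fun z hz => h4 z hz⟩
    rw [h5 z c hz]
    exact s.compat σ c z hz

/-- (1) Let `e_k` be `N` different integers, where `N ≥ 6` is even, that satisfy the condition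
`CrossRatio`, and let `L` be a finite Galois extension of `R = ℚ(x)` in an algebraic closure `Ω` of
`R`.  Then for all squarefree `d`, `|d| ≤ X`, with at most `C X (log X)^(-δ)` exceptions, the following
is true if `L` is contained in the maximal unramified pro-2 extension of `ℚ̄(x, y)`,
`d y² = ∏ (x - e_k)`: every section of the fundamental group of the curve `d y² = ∏ (x - e_k)`, or of an
open subcurve, is attached modulo 2 to exactly one of the rational points `(e_k, 0)`, and it is on
`L` pointwise given by this point `(e_i, 0)` if `L/ℚ(x)` is unramified over `x = e_i`.  (2) The integers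
`0, …, 5` satisfy the condition `CrossRatio`. -/
theorem result :
    (∀ (K : Type) [Fintype K] (e : K → ℤ), Function.Injective e → Even (Fintype.card K) →
      6 ≤ Fintype.card K → CrossRatio e →
      ∀ (R Ω : Type) [Field R] [Field Ω] [Algebra ℚ R] [Algebra R Ω] [Algebra ℚ Ω]
      [IsScalarTower ℚ R Ω] [IsAlgClosure R Ω] (x : R), Transcendental ℚ x →
      IntermediateField.adjoin ℚ {x} = (⊤ : IntermediateField ℚ R) →
      ∀ L : IntermediateField R Ω, FiniteDimensional R L → IsGalois R L →
      ∃ δ C : ℝ, 0 < δ ∧ ∀ X : ℕ, 2 ≤ X →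
        ({d : ℤ | d.natAbs ≤ X ∧ Squarefree d ∧ ¬ SectionsActLikePoints ℚ e d x L}.ncard : ℝ) ≤
          C * X * (Real.log X) ^ (-δ)) ∧
    CrossRatio (fun i : Fin 6 => (i : ℤ)) := by
  refine ⟨?_, crossRatio_ex⟩
  intro K _ e he hev hK hCR R Ω _ _ _ _ _ _ _ x hx hR L hLf hLg
  classical
  obtain ⟨C0, hC0⟩ := Pool.Agent.W262.G3.fin2.{0, 0} Pool.Agent.W623.SecG.secloc2
    Pool.Agent.W623.SecE.secglob K e he hev hK hCR
  choose B hB1 hB2 using fun i : K =>
    Pool.Agent.Y157.PC.level e he hev (by omega) x hx hR i L hLf hLg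
  let P : Option K → ℤ → Prop := fun o d => o.elim
    (Squarefree d ∧ Pool.Agent.W623.SecG.Bad2.{0, 0} e d) (fun i => d ∈ B i)
  obtain ⟨δ, C, hδ, -, hC⟩ := Pool.Agent.Y547.PCQ.manyQ (Finset.univ : Finset (Option K)) P (by
    intro o _
    cases o with
    | none =>
      refine ⟨1 / 5, max C0 0, by norm_num, le_max_right _ _, fun X hX => ?_⟩
      refine (hC0 X hX).trans ?_
      have hX' : (2 : ℝ) ≤ X := by exact_mod_cast hX
      have hL0 : 0 < Real.log X := Real.log_pos (by linarith)
      apply mul_le_mul_of_nonneg_right _ (Real.rpow_pos_of_pos hL0 _).le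
      exact mul_le_mul_of_nonneg_right (le_max_left _ _) (by linarith)
    | some i => exact hB1 i)
  refine ⟨δ, C, hδ, fun X hX => le_trans ?_ (hC X hX)⟩
  have hfin : {d : ℤ | d.natAbs ≤ X ∧ ∃ o ∈ (Finset.univ : Finset (Option K)), P o d}.Finite := by
    refine (Finset.finite_toSet (Finset.Icc (-(X : ℤ)) X)).subset ?_
    rintro d ⟨hd1, -⟩
    rw [Finset.mem_coe, Finset.mem_Icc]
    omega
  have hsub : {d : ℤ | d.natAbs ≤ X ∧ Squarefree d ∧ ¬ SectionsActLikePoints ℚ e d x L} ⊆
      {d : ℤ | d.natAbs ≤ X ∧ ∃ o ∈ (Finset.univ : Finset (Option K)), P o d} := by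
    rintro d ⟨hd1, hd2, hd3⟩
    refine ⟨hd1, ?_⟩
    by_contra hno
    push Not at hno
    apply hd3
    refine acts_of ℚ e he hev d hd2.ne_zero ?_ ?_ ?_ x hx hR L fun i hun => ?_
    · intro i j hij
      obtain ⟨l, l', h1, h2, h3, h4, hsq⟩ := hCR i j hij
      refine ⟨l, l', h1, h2, h3, h4, fun h5 => hsq ?_⟩
      have h6 : ((e i : ℚ) - e l) * (e i - e l') * ((e j - e l) * (e j - e l')) =
          (((e i - e l) * (e i - e l') * ((e j - e l) * (e j - e l')) : ℤ) : ℚ) := by
        push_cast
        ring
      rw [h6, Rat.isSquare_intCast_iff] at h5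
      exact h5
    · intro p hp1 hp2 hp3 hp4
      exact Pool.Agent.Y157.PS.twQ e hev (by omega) d hd2 p hp1 hp2 hp3 hp4
    · intro F Ω _ _ _ _ _ _ hcl halg U G x y hU hx hxy
      by_contra hnone
      push Not at hnone
      refine hno none (Finset.mem_univ _) ⟨hd2, F, Ω, inferInstance, inferInstance, inferInstance,
        inferInstance, inferInstance, inferInstance, hcl, halg, U, G, x, y, hU, hx, ?_, fun k hk =>
        hnone k (Pool.Agent.W623.SecG.atK_of_At G x e k hk)⟩
      simp only [map_intCast] at hxy
      exact hxy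
    · have hun' : Pool.Agent.Y157.PC.UnrAt x (e i : ℚ) L := by
        intro W hW z hz hz0
        obtain ⟨t, ht, h5, h6⟩ := hun W hW.1 hW.2 z hz hz0
        exact ⟨t, ht, div_ne_zero hz0 ((_root_.map_ne_zero _).2 ht), h5, h6⟩
      intro F y hxy hF N hN hMN hLM s hcont hcompat hloc
      exact hB2 i d hd2.ne_zero (fun hb => hno (some i) (Finset.mem_univ _) hb) hun' F y hxy hF N
        hN hMN hLM _ s hcont hcompat hloc
  exact_mod_cast Set.ncard_le_ncard hsub hfin

end Pool.Agent.Results.MP_c1dca2_ag.SectionsAtFiniteLevels
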