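import Mathlib
import Pool.Agent.Y488.TM.SecMain
import Pool.Agent.Y488.TM.Arg
import Pool.Agent.Y488.TM.Arl
import Pool.Agent.Y488.TM.RedC
import Pool.Agent.Y488.TM.ExA
import Pool.Agent.Y488.TM.ExB

/-!
# The section conjecture for 100% of the quadratic twists, factors of odd degree

Let `f k ∈ ℤ[x]` be irreducible over `ℚ`, pairwise non-associated, of even total degree, at least
four of them of odd degree, and none of degree 1.  Then for all squarefree `d`, `|d| ≤ X`, with at
most `C X (log X)^(-δ)` exceptions, and all even `n ≥ 2` the curve `d yⁿ = ∏ k, f k (x)` has no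
rational point and its fundamental group has no section, also when any set of closed points of the
curve is removed.  So these curves, and all smooth curves over `ℚ` that dominate one of them, satisfy
the section conjecture.  There are examples with points everywhere locally for all `d`.

The twists with rational branch points are considered in
`MP_896029_ag/SectionsNearBranchPoint.lean`.

The fundamental group is described through valuations, as in `AllEvenFactors.lean` of the starting
library, which has the case of factors of even degree.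

Proof.  For a set `T` of factors of even total degree a section gives a square class `s_T` of rational
numbers and an element `β_T` of `F_U` fixed by the section with `s_T β_T² = ∏ k ∈ T, f k (x)`.  By the
theory of the sections at a prime `p` dividing `d` (parts SecC, SecE, SecG of helper623 in the
starting library) there is a root of one `f_i` modulo `p`, such that `s_T` is ramified at `p` for
`i ∈ T` and in the square class of the value of `∏ k ∈ T, f k` at the root for `i ∉ T`.  The factors
of odd degree are only determined in pairs, which doubles the number of the sign patterns.  The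
number of the families `(s_k)` with these properties is bounded by bilinear sums of Jacobi symbols
and the Chebotarev theorem, as soon as there are at least four factors of odd degree.
-/

open Polynomial

namespace Pool.Agent.Results.MP_c1dca2_ag.TwistsWithMixedFactors

universe u v w

section definitions

variable (k : Type u) (F : Type v) (Ω : Type w) [Field k] [Field F] [Field Ω] [Algebra k F]
  [Algebra F Ω] [Algebra k Ω]

/-- The inertia group of the valuation ring `W` of `Ω`, as a subgroup of `Gal(Ω/F)`: the
automorphisms of `Ω` over `F` that map `W` onto itself and act as the identity on its residue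
field. -/
noncomputable def inertia (W : ValuationSubring Ω) : Subgroup (Ω ≃ₐ[F] Ω) :=
  (W.inertiaSubgroup F).map (W.decompositionSubgroup F).subtype

/-- `F_U`, for a set `U` of valuation rings of `F`: the elements of `Ω` fixed by the inertia groups
of all valuation rings `W` of `Ω` with `W ∩ F ∈ U`.  If `Ω` is an algebraic closure of a field `F`
of characteristic zero, this is the maximal extension of `F` in `Ω` unramified over `U`. -/
noncomputable def unramified (U : Set (ValuationSubring F)) : IntermediateField F Ω :=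
  ⨅ W : {W : ValuationSubring Ω // W.comap (algebraMap F Ω) ∈ U},
    IntermediateField.fixedField (inertia F Ω W.1)

/-- The map `τ : M → M` acts as `σ : K → K` on the elements that the fields `K` and `M` have in
common when they are regarded as subfields of `Ω` through `i` and `j`. -/
def ActsAs {K M Ω : Type*} [Field K] [Field M] [Field Ω] (i : K →+* Ω) (j : M →+* Ω) (σ : K → K)
    (τ : M → M) : Prop :=
  ∀ c z, j z = i c → j (τ z) = i (σ c)

/-- Let `k ⊆ K ⊆ Ω` and `F ⊆ M ⊆ Ω` be fields.  A splitting of `Gal(M/F) → Gal(K/k)`: a continuous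
homomorphism `s` from `Gal(K/k)` to `Gal(M/F)` such that `s(σ)` acts as `σ` on the elements of
`K ∩ M`. -/
structure Splitting (K M : Type*) [Field K] [Field M] [Algebra k K] [Algebra F M] [Algebra K Ω]
    [Algebra M Ω] where
  /-- the homomorphism `Gal(K/k) → Gal(M/F)` -/
  toHom : (K ≃ₐ[k] K) →* (M ≃ₐ[F] M)
  cont : Continuous toHom
  compat : ∀ σ : K ≃ₐ[k] K, ActsAs (algebraMap K Ω) (algebraMap M Ω) σ (toHom σ)

/-- The sections of `π₁(U) = Gal(F_U/F) → G_k`: the continuous homomorphisms `s` from
`G_k = Gal(k̄/k)` to `Gal(F_U/F)`, where `k̄` is the algebraic closure of `k` in `Ω`, such that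
`s(σ)` acts as `σ` on the elements of `k̄`. -/
def GaloisSection (U : Set (ValuationSubring F)) : Type w :=
  Splitting k F Ω (algebraicClosure k Ω) (unramified F Ω U)

end definitions

/-- The smooth projective curve `a yⁿ = f(x)` has no point over `k`: neither in the affine part nor
at infinity.  The points at infinity correspond to the elements `r` (the values of
`y ^ (n / g) / x ^ (deg f / g)`, `g = gcd (n, deg f)`) such that `a r ^ g` is the leading coefficient
of `f`. -/
def NoPoint {k : Type u} [Field k] (n : ℕ) (a : k) (f : k[X]) : Prop :=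
  (¬ ∃ x y : k, a * y ^ n = f.eval x) ∧
    ¬ ∃ r : k, a * r ^ (n.gcd f.natDegree) = f.leadingCoeff

/-- Let `F` be any field over `k` that contains a point `(x, y)` of the curve `a yⁿ = f(x)`, for
instance the function field of the curve, and let `Ω` be an algebraic closure of `F`.  Then for
every set `U` of valuation rings of `F` over `k` there is no section of `π₁(U) → G_k`.  If `F` is the
function field of the curve, such `U` are given by the smooth projective curve and by all its open
subcurves. -/
def NoSection {k : Type u} [Field k] (n : ℕ) (a : k) (f : k[X]) : Prop :=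
  ∀ (F : Type v) (Ω : Type w) [Field F] [Field Ω] [Algebra k F] [Algebra F Ω] [Algebra k Ω]
    [IsScalarTower k F Ω] [IsAlgClosure F Ω] (x y : F) (U : Set (ValuationSubring F)),
    algebraMap k F a * y ^ n = aeval x f → (∀ O ∈ U, ∀ c : k, algebraMap k F c ∈ O) →
      IsEmpty (GaloisSection k F Ω U)

/-- For some even `n ≥ 2` the curve `d yⁿ = f(x)` has a rational point or a section. -/
def Exceptional (f : ℚ[X]) (d : ℤ) : Prop :=
  ∃ n : ℕ, 0 < n ∧ Even n ∧ ¬ (NoPoint n (d : ℚ) f ∧ NoSection.{0, v, w} n (d : ℚ) f)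

lemma noSection_of {k : Type u} [Field k] {n m : ℕ} {a : k} {f : k[X]} (hn : n = m + m)
    (h : ∀ (F : Type v) (Ω : Type w) [Field F] [Field Ω] [Algebra k F] [Algebra F Ω] [Algebra k Ω]
      [IsScalarTower k F Ω] [IsAlgClosed Ω] [Algebra.IsAlgebraic F Ω]
      (U : Set (ValuationSubring F)) (x y : F), (∀ O ∈ U, ∀ c : k, algebraMap k F c ∈ O) →
      Nonempty (Pool.Agent.W620.SC.GSection k F Ω U) → algebraMap k F a * y ^ 2 ≠ aeval x f) :
    NoSection.{u, v, w} n a f := by
  intro F Ω _ _ _ _ _ _ _ x y U hxy hU
  have hcl : IsAlgClosed Ω := IsAlgClosure.isAlgClosed F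
  have halg : Algebra.IsAlgebraic F Ω := IsAlgClosure.isAlgebraic
  refine ⟨fun s => ?_⟩
  refine h F Ω U x (y ^ m) hU ⟨⟨s.toHom, s.cont, s.compat⟩⟩ ?_
  rw [← hxy, ← pow_mul, mul_two, hn]

section K

variable {K : Type} [Fintype K] [DecidableEq K]

/-- the indices of the factors of odd degree -/
def Od (f : K → ℤ[X]) : Finset K := Finset.univ.filter (fun k => Odd (f k).natDegree)

/-- the factors are irreducible over `ℚ`, pairwise non-associated, of even total degree, and at
least four of them have odd degree -/
def Factors (f : K → ℤ[X]) : Prop :=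
  (∀ k, Irreducible ((f k).map (Int.castRingHom ℚ))) ∧
  (∀ k l, k ≠ l →
    ¬ Associated ((f k).map (Int.castRingHom ℚ)) ((f l).map (Int.castRingHom ℚ))) ∧
  Even (∑ k, (f k).natDegree) ∧ 4 ≤ (Od f).card

end K

/-- `X² + X + 1`, `X³ - 2`, `X³ - 3`, `X³ - 5`, `X³ - 19` -/
noncomputable def ex : Fin 5 → ℤ[X] :=
  ![X ^ 2 + X + 1, X ^ 3 - 2, X ^ 3 - 3, X ^ 3 - 5, X ^ 3 - 19]

lemma hyp_of {K : Type} [Fintype K] [DecidableEq K] (f : K → ℤ[X]) (hF : Factors f)
    (hl : ∀ k, (f k).natDegree ≠ 1) : Pool.Agent.Y488.TM.Hyp f := by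
  have hLn : Pool.Agent.Y488.TM.Ln f = ∅ := by
    unfold Pool.Agent.Y488.TM.Ln
    rw [Finset.filter_eq_empty_iff]
    exact fun k _ => hl k
  refine ⟨hF.1, hF.2.1, hF.2.2.1, hF.2.2.2, fun i hi => ?_, fun h4 hs => ?_⟩
  · exact absurd (show i ∈ Pool.Agent.Y488.TM.Ln f from hi) (by rw [hLn]; exact Finset.notMem_empty i)
  · exfalso
    have h1 : Od f ⊆ Pool.Agent.Y488.TM.Ln f := hs
    rw [hLn, Finset.subset_empty] at h1
    have h2 : (Od f).card = 4 := h4
    rw [h1, Finset.card_empty] at h2
    omega

lemma hom_inf (f : ℤ[X]) : Pool.Agent.W262.TW.hom f (1 : ℚ) 0 =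
    (f.map (Int.castRingHom ℚ)).leadingCoeff := by
  unfold Pool.Agent.W262.TW.hom
  rw [Finset.sum_eq_single f.natDegree]
  · rw [leadingCoeff, natDegree_map_eq_of_injective (RingHom.injective_int (Int.castRingHom ℚ)),
      coeff_map]
    simp
  · intro i hi hne
    have : f.natDegree - i ≠ 0 := by
      rw [Finset.mem_range] at hi
      omega
    rw [zero_pow this, mul_zero]
  · intro h
    simp at h

lemma lc_prod {K : Type} [Fintype K] (f : K → ℤ[X]) :
    (∏ k, (f k).map (Int.castRingHom ℚ)).leadingCoeff =
      ∏ k, Pool.Agent.W262.TW.hom (f k) (1 : ℚ) 0 := by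
  rw [leadingCoeff_prod]
  exact Finset.prod_congr rfl fun k _ => (hom_inf (f k)).symm

theorem result :
    (∀ (K : Type) [Fintype K] [DecidableEq K] (f : K → ℤ[X]), Factors f →
      (∀ k, (f k).natDegree ≠ 1) →
      ∃ δ : ℝ, 0 < δ ∧ ∃ C : ℝ, ∀ X : ℕ, 3 ≤ X →
        ({d : ℤ | d.natAbs ≤ X ∧ Squarefree d ∧
          Exceptional.{v, w} (∏ k, (f k).map (Int.castRingHom ℚ)) d}.ncard : ℝ) ≤
          C * X * (Real.log X) ^ (-δ)) ∧
    (Factors ex ∧ (∀ k, (ex k).natDegree ≠ 1) ∧ (∃ x : ℝ, ∏ k, aeval x (ex k) = 0) ∧
      ∀ (p : ℕ) [Fact p.Prime], ∃ x : ℚ_[p], ∏ k, aeval x (ex k) = 0) := by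
  refine ⟨fun K _ _ f hF hl => ?_, ?_⟩
  · obtain ⟨δ, hδ, C, hC⟩ := Pool.Agent.Y488.TM.sec_final.{v, w} Pool.Agent.Y488.TM.redc
      Pool.Agent.Y488.TM.arg Pool.Agent.Y488.TM.arl f (hyp_of f hF hl) hl
    refine ⟨δ, hδ, C, fun X hX => le_trans ?_ (hC X hX)⟩
    refine Nat.cast_le.2 (Set.ncard_le_ncard ?_ (Pool.Agent.TH213.SP.fin_le X _))
    rintro d ⟨hd1, hd2, n, hn, ⟨m, rfl⟩, hne⟩
    refine ⟨hd1, hd2, ?_⟩
    by_contra hbad
    apply hne
    unfold Pool.Agent.Y488.TM.BadP at hbad
    push Not at hbad
    obtain ⟨h1, h3⟩ := hbad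
    refine ⟨⟨?_, ?_⟩, ?_⟩
    · rintro ⟨x, y, hxy⟩
      apply h1 x 1 (y ^ m) (Or.inr one_ne_zero)
      rw [← pow_mul, mul_two, hxy, eval_prod]
      exact Finset.prod_congr rfl fun k _ => (Pool.Agent.Y488.TM.hom_eval_one (f k) x).symm
    · rintro ⟨r, hr⟩
      have hev : Even (∏ k, (f k).map (Int.castRingHom ℚ)).natDegree := by
        rw [natDegree_prod _ _ fun k _ => (hF.1 k).ne_zero]
        simp only [natDegree_map_eq_of_injective (RingHom.injective_int (Int.castRingHom ℚ))]
        exact hF.2.2.1
      obtain ⟨j, hj⟩ : Even ((m + m).gcd (∏ k, (f k).map (Int.castRingHom ℚ)).natDegree) :=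
        even_iff_two_dvd.2 (Nat.dvd_gcd ⟨m, by ring⟩ hev.two_dvd)
      apply h1 1 0 (r ^ j) (Or.inl one_ne_zero)
      rw [← pow_mul, mul_two, ← hj, hr, lc_prod]
    · refine noSection_of rfl ?_
      intro F Ω _ _ _ _ _ _ hcl halg U x y hU hG hxy
      refine h3 F Ω inferInstance inferInstance inferInstance inferInstance inferInstance
        inferInstance hcl halg U x y hU hG ?_
      have e2 : ∀ k, aeval x ((f k).map (Int.castRingHom ℚ)) = aeval x (f k) := by
        intro k
        rw [aeval_def, aeval_def, eval₂_map]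
        congr 1
        exact RingHom.ext_int _ _
      rw [map_prod, Finset.prod_congr rfl fun k _ => e2 k] at hxy
      rw [← hxy]
      have e3 : algebraMap ℚ F (d : ℚ) = (d : F) := by simp
      rw [e3]
  · obtain ⟨a1, a2, a3, a4⟩ := Pool.Agent.Y488.TM.exa
    obtain ⟨b1, b2⟩ := Pool.Agent.Y488.TM.exb
    have d0 : (ex 0).natDegree = 2 := a3
    have d1 : (ex 1).natDegree = 3 := a4 1 (by decide)
    have d2 : (ex 2).natDegree = 3 := a4 2 (by decide)
    have d3 : (ex 3).natDegree = 3 := a4 3 (by decide)
    have d4 : (ex 4).natDegree = 3 := a4 4 (by decide)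
    have z0 : ∀ {L : Type} [Field L] [Algebra ℤ L] (x : L), x ^ 2 + x + 1 = 0 →
        ∏ k, aeval x (ex k) = 0 := by
      intro L _ _ x hx
      refine Finset.prod_eq_zero (Finset.mem_univ 0) ?_
      have e : ex 0 = X ^ 2 + X + 1 := rfl
      rw [e]
      simp only [map_add, map_pow, aeval_X, map_one]
      exact hx
    have z4 : ∀ {L : Type} [Field L] [Algebra ℤ L] (x : L), x ^ 3 = 19 →
        ∏ k, aeval x (ex k) = 0 := by
      intro L _ _ x hx
      refine Finset.prod_eq_zero (Finset.mem_univ 4) ?_
      have e : ex 4 = X ^ 3 - 19 := rfl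
      rw [e]
      simp only [map_sub, map_pow, aeval_X, map_ofNat]
      rw [hx, sub_self]
    refine ⟨⟨a1, a2, ?_, ?_⟩, ?_, ?_, fun p _ => ?_⟩
    · rw [Fin.sum_univ_five, d0, d1, d2, d3, d4]
      decide
    · have h : ({1, 2, 3, 4} : Finset (Fin 5)) ⊆ Od ex := by
        intro k hk
        unfold Od
        rw [Finset.mem_filter]
        refine ⟨Finset.mem_univ _, ?_⟩
        rw [a4 k (by rintro rfl; revert hk; decide) |> (fun h : (ex k).natDegree = 3 => h)]
        decide
      exact Finset.card_le_card h
    · intro k hk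
      by_cases h0 : k = 0
      · subst h0
        rw [d0] at hk
        omega
      · have h3 : (ex k).natDegree = 3 := a4 k h0
        rw [h3] at hk
        omega
    · obtain ⟨x, hx⟩ := b1
      exact ⟨x, z4 x hx⟩
    · rcases b2 p with ⟨x, hx⟩ | ⟨x, hx⟩
      · exact ⟨x, z0 x hx⟩
      · exact ⟨x, z4 x hx⟩

end Pool.Agent.Results.MP_c1dca2_ag.TwistsWithMixedFactors
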